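import Mathlib
import Pool.Agent.Lib.MP_d9740f_co.Main

/-!
# Face numbers of embeddable complexes with at most `r + 4` vertices

Question Q1 for `n ≤ r + 4` and `2 k ≤ r + 1`, for almost embeddings, hence for topological
embeddings. In particular Q1 holds for all `d`, for `r = 2 d - 1` and `r = 2 d`, and all `n ≤ r + 4`.
The statement is the one of the problem (with the faces of the cyclic polytope as the sets of the
points of the moment curve on a supporting hyperplane); the dimension of the complex is not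
restricted, the given points need not all be vertices, and the map need not be injective: it is only
required that points with disjoint supports have different images.
-/

namespace Pool.Agent.Results.MP_d9740f_co.FewVertices

open Pool.Agent.Lib.MP_d9740f_co

/-- Let `K` be a complex on `n ≤ r + 4` points, with a continuous map of its realization to the
space of dimension `r` for which any two points with disjoint supports have different images (every
topological embedding is such a map). Then `K` has at most as many `k`-faces as the cyclic polytope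
`C_{r+1}(n)`, for all `k` with `2 k ≤ r + 1`. -/
theorem result :
    ∀ r n : ℕ, n ≤ r + 4 →
    ∀ K : Finset (Finset (Fin n)),
      (∀ σ ∈ K, ∀ τ : Finset (Fin n), τ ⊆ σ → τ.Nonempty → τ ∈ K) →
      (∃ f : (Fin n → ℝ) → EuclideanSpace ℝ (Fin r),
        ContinuousOn f {x : Fin n → ℝ | (∀ i, 0 ≤ x i) ∧ ∑ i, x i = 1 ∧
            ∃ σ ∈ K, ∀ i, i ∉ σ → x i = 0} ∧
        ∀ x ∈ {x : Fin n → ℝ | (∀ i, 0 ≤ x i) ∧ ∑ i, x i = 1 ∧
            ∃ σ ∈ K, ∀ i, i ∉ σ → x i = 0},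
          ∀ y ∈ {x : Fin n → ℝ | (∀ i, 0 ≤ x i) ∧ ∑ i, x i = 1 ∧
              ∃ σ ∈ K, ∀ i, i ∉ σ → x i = 0},
            (∀ i, x i = 0 ∨ y i = 0) → f x ≠ f y) →
      ∀ k : ℕ, 1 ≤ k → 2 * k ≤ r + 1 →
        {σ : Finset (Fin n) | σ ∈ K ∧ σ.card = k + 1}.ncard ≤
        {S : Finset (Fin n) | S.card = k + 1 ∧
          ∃ a : Fin (r + 1) → ℝ, ∃ c : ℝ,
            (∀ i ∈ S, ∑ j : Fin (r + 1), a j * ((i : ℕ) : ℝ) ^ ((j : ℕ) + 1) = c) ∧
            (∀ i : Fin n, i ∉ S →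
              ∑ j : Fin (r + 1), a j * ((i : ℕ) : ℝ) ^ ((j : ℕ) + 1) < c)}.ncard :=
  fun _ _ hn K hK hf k hk hkr => faces_le hn K hK hf k hk hkr

/-- The form for topological embeddings, with the hypotheses of the problem. -/
theorem embeddings :
    ∀ d r n : ℕ, 1 ≤ d → d ≤ r → r ≤ 2 * d → 2 * d ≤ r + 1 → n ≤ r + 4 →
    ∀ K : Finset (Finset (Fin n)),
      (∀ σ ∈ K, ∀ τ : Finset (Fin n), τ ⊆ σ → τ.Nonempty → τ ∈ K) →
      (∀ σ ∈ K, σ.Nonempty ∧ σ.card ≤ d + 1) →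
      (∃ σ ∈ K, σ.card = d + 1) →
      (∀ i : Fin n, ({i} : Finset (Fin n)) ∈ K) →
      (∃ f : (Fin n → ℝ) → EuclideanSpace ℝ (Fin r),
        ContinuousOn f {x : Fin n → ℝ | (∀ i, 0 ≤ x i) ∧ ∑ i, x i = 1 ∧
            ∃ σ ∈ K, ∀ i, i ∉ σ → x i = 0} ∧
        Set.InjOn f {x : Fin n → ℝ | (∀ i, 0 ≤ x i) ∧ ∑ i, x i = 1 ∧
            ∃ σ ∈ K, ∀ i, i ∉ σ → x i = 0}) →
      ∀ k : ℕ, 1 ≤ k → k ≤ d →
        {σ : Finset (Fin n) | σ ∈ K ∧ σ.card = k + 1}.ncard ≤
        {S : Finset (Fin n) | S.card = k + 1 ∧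
          ∃ a : Fin (r + 1) → ℝ, ∃ c : ℝ,
            (∀ i ∈ S, ∑ j : Fin (r + 1), a j * ((i : ℕ) : ℝ) ^ ((j : ℕ) + 1) = c) ∧
            (∀ i : Fin n, i ∉ S →
              ∑ j : Fin (r + 1), a j * ((i : ℕ) : ℝ) ^ ((j : ℕ) + 1) < c)}.ncard :=
  fun _ r n _ _ _ hd hn K hK _ _ _ ⟨f, hf, hi⟩ k hk hkd =>
    result r n hn K hK ⟨f, hf, alm_of_injOn hi⟩ k hk (by omega)

end Pool.Agent.Results.MP_d9740f_co.FewVertices
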