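import Mathlib
import Pool.Agent.Lib.MP_d9740f_co.TopK

/-!
# Face numbers of embeddable complexes with `r + 3` points, in all dimensions

Question Q1 for `n ≤ r + 3`, for all `d` and all `k`, and for `n = r + 4`, `k = r`, for almost
embeddings, hence for topological embeddings. The statement is the one of the problem (with the
faces of the cyclic polytope as the sets of the points of the moment curve on a supporting
hyperplane); the dimension of the complex is not restricted, the given points need not all be
vertices, and the map need not be injective: it is only required that points with disjoint supports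
have different images.
-/

namespace Pool.Agent.Results.MP_d9740f_co.HighFaces

open Pool.Agent.Lib.MP_d9740f_co

/-- Let `K` be a complex on `n` points, with a continuous map of its realization to the space of
dimension `r` for which any two points with disjoint supports have different images (every
topological embedding is such a map). If `n ≤ r + 3`, or if `n = r + 4` and `k = r`, then `K` has at
most as many `k`-faces as the cyclic polytope `C_{r+1}(n)`. -/
theorem result :
    ∀ r n k : ℕ, (n ≤ r + 3 ∨ (n = r + 4 ∧ k = r)) →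
    ∀ K : Finset (Finset (Fin n)),
      (∀ σ ∈ K, ∀ τ : Finset (Fin n), τ ⊆ σ → τ.Nonempty → τ ∈ K) →
      (∃ f : (Fin n → ℝ) → EuclideanSpace ℝ (Fin r),
        ContinuousOn f {x : Fin n → ℝ | (∀ i, 0 ≤ x i) ∧ ∑ i, x i = 1 ∧
            ∃ σ ∈ K, ∀ i, i ∉ σ → x i = 0} ∧
        ∀ x ∈ {x : Fin n → ℝ | (∀ i, 0 ≤ x i) ∧ ∑ i, x i = 1 ∧
            ∃ σ ∈ K, ∀ i, i ∉ σ → x i = 0},
          ∀ y ∈ {x : Fin n → ℝ | (∀ i, 0 ≤ x i) ∧ ∑ i, x i = 1 ∧
              ∃ σ ∈ K, ∀ i, i ∉ σ → x i = 0},
            (∀ i, x i = 0 ∨ y i = 0) → f x ≠ f y) →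
        {σ : Finset (Fin n) | σ ∈ K ∧ σ.card = k + 1}.ncard ≤
        {S : Finset (Fin n) | S.card = k + 1 ∧
          ∃ a : Fin (r + 1) → ℝ, ∃ c : ℝ,
            (∀ i ∈ S, ∑ j : Fin (r + 1), a j * ((i : ℕ) : ℝ) ^ ((j : ℕ) + 1) = c) ∧
            (∀ i : Fin n, i ∉ S →
              ∑ j : Fin (r + 1), a j * ((i : ℕ) : ℝ) ^ ((j : ℕ) + 1) < c)}.ncard :=
  fun _ _ k hk K hK hf => faces_le' K hK hf k hk

end Pool.Agent.Results.MP_d9740f_co.HighFaces
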