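import Mathlib
import Pool.Agent.Lib.MP_d9740f_co.MM.Fin

/-!
# Face numbers of embeddable complexes with `r + 4` points in the middle dimensions

Question Q1 for `n = r + 4` and `2 k = r + 2` or `2 k = r + 3`, for almost embeddings, hence for
topological embeddings. The statement is the one of the problem (with the faces of the cyclic
polytope as the sets of the points of the moment curve on a supporting hyperplane); the dimension of
the complex is not restricted, the given points need not all be vertices, and the map need not be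
injective: it is only required that points with disjoint supports have different images.
-/

namespace Pool.Agent.Results.MP_d9740f_co.MiddleFaces

open Pool.Agent.Lib.MP_d9740f_co

/-- Let `K` be a complex on `r + 4` points, with a continuous map of its realization to the space of
dimension `r` for which any two points with disjoint supports have different images (every
topological embedding is such a map). If `2 k = r + 2` or `2 k = r + 3`, and `k ≤ r`, then `K` has at
most as many `k`-faces as the cyclic polytope `C_{r+1}(r + 4)`. -/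
theorem result :
    ∀ r k : ℕ, k ≤ r → (2 * k = r + 2 ∨ 2 * k = r + 3) →
    ∀ K : Finset (Finset (Fin (r + 4))),
      (∀ σ ∈ K, ∀ τ : Finset (Fin (r + 4)), τ ⊆ σ → τ.Nonempty → τ ∈ K) →
      (∃ f : (Fin (r + 4) → ℝ) → EuclideanSpace ℝ (Fin r),
        ContinuousOn f {x : Fin (r + 4) → ℝ | (∀ i, 0 ≤ x i) ∧ ∑ i, x i = 1 ∧
            ∃ σ ∈ K, ∀ i, i ∉ σ → x i = 0} ∧
        ∀ x ∈ {x : Fin (r + 4) → ℝ | (∀ i, 0 ≤ x i) ∧ ∑ i, x i = 1 ∧
            ∃ σ ∈ K, ∀ i, i ∉ σ → x i = 0},
          ∀ y ∈ {x : Fin (r + 4) → ℝ | (∀ i, 0 ≤ x i) ∧ ∑ i, x i = 1 ∧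
              ∃ σ ∈ K, ∀ i, i ∉ σ → x i = 0},
            (∀ i, x i = 0 ∨ y i = 0) → f x ≠ f y) →
        {σ : Finset (Fin (r + 4)) | σ ∈ K ∧ σ.card = k + 1}.ncard ≤
        {S : Finset (Fin (r + 4)) | S.card = k + 1 ∧
          ∃ a : Fin (r + 1) → ℝ, ∃ c : ℝ,
            (∀ i ∈ S, ∑ j : Fin (r + 1), a j * ((i : ℕ) : ℝ) ^ ((j : ℕ) + 1) = c) ∧
            (∀ i : Fin (r + 4), i ∉ S →
              ∑ j : Fin (r + 1), a j * ((i : ℕ) : ℝ) ^ ((j : ℕ) + 1) < c)}.ncard :=
  fun _ k hkr hk K hK hf => MM.faces_le_mid K hK hf k hkr hk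

end Pool.Agent.Results.MP_d9740f_co.MiddleFaces
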